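import Pool.Agent.MSTLim.FinalS
import Pool.Agent.MSTLim.MeasConf
import Pool.Agent.MSTLim.PartN
import Pool.Agent.MSTP.PG
import Pool.Agent.MSTS.Master

/-!
# MP_e1ab72_pr, Q1: the minimal spanning tree limit is not conformally invariant

The definitions are in `Pool/Agent/TriPerc/Defs.lean` (the lattice and the labels),
`Pool/Agent/MSTLim/Defs.lean` (the sphere, curves, configurations, the minimal spanning tree,
convergence in law, conformal invariance) and `Pool/Agent/MSTLim/DefsA.lean` (asymptotic
invariance of the lattice trees).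
-/

set_option autoImplicit false

namespace Pool.Agent.Results.MP_e1ab72_pr.NotConfInv

open MeasureTheory Filter Topology
open Pool.Agent.MSTLim

/-- (0) The configuration `conf η` of the minimal spanning tree of the triangular lattice with the
mesh `η > 0` is a Borel measurable random closed set of curves.
(1) Let `μ` be the limit in law of the minimal spanning trees as the mesh tends to `0`.  Then `μ` is
not invariant under `z ↦ 1 / z`; hence it is not conformally invariant, and it differs from every
conformally invariant law (such as the limit of the uniform spanning tree).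
(2) The minimal spanning trees of the lattice are not asymptotically invariant under `z ↦ 1 / z` as
the mesh tends to `0` (no limit is assumed here).
(3) For every sequence of meshes which tends to `0`, they are not asymptotically invariant under all
Moebius transformations (no limit is assumed here), and no limit in law along the sequence is
conformally invariant. -/
theorem result :
    (∀ η : ℝ, 0 < η → Measurable (conf η)) ∧
    (∀ μ : Measure Om, TendsLaw (𝓝[>] (0 : ℝ)) (fun η => η) μ →
      (∀ g : Sph ≃ₜ Sph, (∀ z : ℂ, z ≠ 0 → g (sig z) = sig (1 / z)) → μ.map (actO g) ≠ μ) ∧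
        ¬ ConfInv μ ∧ ∀ ν : Measure Om, ConfInv ν → μ ≠ ν) ∧
    (∀ g : Sph ≃ₜ Sph, (∀ z : ℂ, z ≠ 0 → g (sig z) = sig (1 / z)) →
      ¬ AsInv (𝓝[>] (0 : ℝ)) (fun η => η) g) ∧
    ∀ η : ℕ → ℝ, (∀ k, 0 < η k) → Tendsto η atTop (𝓝 0) →
      (∃ g : Sph ≃ₜ Sph, IsMoebius g ∧ ¬ AsInv atTop η g) ∧
        ∀ μ : Measure Om, TendsLaw atTop η μ →
          ¬ ConfInv μ ∧ ∀ ν : Measure Om, ConfInv ν → μ ≠ ν := by
  obtain ⟨K0, hK0, hG⟩ := MSTP.partG_of MSTS.master
  obtain ⟨K1, hK1, hN⟩ := partN
  have h0 : K0 ≤ max K0 K1 := le_max_left _ _
  exact ⟨fun η hη => measurable_conf hη,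
    finalS_of (K := max K0 K1) (by linarith) (hN _ (le_max_right _ _)) (hG _ h0)⟩

end Pool.Agent.Results.MP_e1ab72_pr.NotConfInv
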